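import Pool.Agent.Helper3.MAS.Fam

/-!
The class of exchange families (the families of bases of matroids, and the empty family) and
Knuth's lower bound for their number.
-/

namespace Pool.Agent.Helper3.MAS

open Finset

/-- the base exchange property, for a possibly empty family of finite sets -/
def Exch (F : Finset (Finset ℕ)) : Prop :=
  ∀ B ∈ F, ∀ B' ∈ F, ∀ x ∈ B, x ∉ B' → ∃ y ∈ B', y ∉ B ∧ insert y (B.erase x) ∈ F

/-- exchange families on the ground set `S` -/
def ExK (S : Finset ℕ) (F : Finset (Finset ℕ)) : Prop := F ⊆ S.powerset ∧ Exch F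

theorem mem_del {x : ℕ} {F : Finset (Finset ℕ)} {B : Finset ℕ} :
    B ∈ del x F ↔ B ∈ F ∧ x ∉ B := Finset.mem_filter

theorem mem_con {x : ℕ} {F : Finset (Finset ℕ)} {B : Finset ℕ} :
    B ∈ con x F ↔ x ∉ B ∧ insert x B ∈ F := by
  unfold con
  rw [Finset.mem_image]
  constructor
  · rintro ⟨C, hC, rfl⟩
    rw [Finset.mem_filter] at hC
    refine ⟨Finset.notMem_erase _ _, ?_⟩
    rw [Finset.insert_erase hC.2]; exact hC.1
  · rintro ⟨hx, h⟩
    refine ⟨insert x B, Finset.mem_filter.mpr ⟨h, Finset.mem_insert_self _ _⟩, ?_⟩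
    exact Finset.erase_insert hx

theorem exch_del {x : ℕ} {F : Finset (Finset ℕ)} (h : Exch F) : Exch (del x F) := by
  intro B hB B' hB' a ha ha'
  rw [mem_del] at hB hB'
  obtain ⟨y, hy, hyB, hyF⟩ := h B hB.1 B' hB'.1 a ha ha'
  refine ⟨y, hy, hyB, mem_del.mpr ⟨hyF, ?_⟩⟩
  intro hx
  rcases Finset.mem_insert.mp hx with rfl | hx
  · exact hB'.2 hy
  · exact hB.2 (Finset.mem_of_mem_erase hx)

theorem exch_con {x : ℕ} {F : Finset (Finset ℕ)} (h : Exch F) : Exch (con x F) := by
  intro B hB B' hB' a ha ha'
  rw [mem_con] at hB hB'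
  have hax : a ≠ x := fun e => hB.1 (e ▸ ha)
  obtain ⟨y, hy, hyB, hyF⟩ := h _ hB.2 _ hB'.2 a (Finset.mem_insert_of_mem ha) (by
    intro h'
    rcases Finset.mem_insert.mp h' with h' | h'
    · exact hax h'
    · exact ha' h')
  have hyx : y ≠ x := fun e => hyB (e ▸ Finset.mem_insert_self _ _)
  have hy' : y ∈ B' := by
    rcases Finset.mem_insert.mp hy with h' | h'
    · exact absurd h' hyx
    · exact h'
  refine ⟨y, hy', fun h' => hyB (Finset.mem_insert_of_mem h'), mem_con.mpr ⟨?_, ?_⟩⟩
  · intro h'
    rcases Finset.mem_insert.mp h' with h' | h'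
    · exact hyx h'.symm
    · exact hB.1 (Finset.mem_of_mem_erase h')
  · have : insert x (insert y (B.erase a)) = insert y ((insert x B).erase a) := by
      rw [Finset.erase_insert_of_ne hax.symm, Finset.insert_comm]
    rw [this]; exact hyF

theorem exch_rl (σ : Equiv.Perm ℕ) {F : Finset (Finset ℕ)} (h : Exch F) : Exch (rl σ F) := by
  intro B hB B' hB' a ha ha'
  obtain ⟨C, hC, rfl⟩ := Finset.mem_image.mp hB
  obtain ⟨C', hC', rfl⟩ := Finset.mem_image.mp hB'
  obtain ⟨c, hc, rfl⟩ := Finset.mem_image.mp ha
  have hc' : c ∉ C' := fun h' => ha' (Finset.mem_image_of_mem _ h')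
  obtain ⟨y, hy, hyC, hyF⟩ := h C hC C' hC' c hc hc'
  refine ⟨σ y, Finset.mem_image_of_mem _ hy, ?_, ?_⟩
  · intro h'
    obtain ⟨w, hw, hwy⟩ := Finset.mem_image.mp h'
    exact hyC (σ.injective hwy ▸ hw)
  · have : insert (σ y) ((C.image σ).erase (σ c)) = (insert y (C.erase c)).image σ := by
      rw [Finset.image_insert, Finset.image_erase σ.injective]
    rw [this]; exact mem_rl.mpr hyF

theorem ExK_MC : MC ExK where
  sub h := h.1
  perm := by
    rintro S F σ ⟨h1, h2⟩
    refine ⟨?_, exch_rl σ h2⟩
    intro B hB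
    obtain ⟨C, hC, rfl⟩ := Finset.mem_image.mp hB
    rw [Finset.mem_powerset]
    exact Finset.image_subset_image (Finset.mem_powerset.mp (h1 hC))
  del := by
    rintro S F x hx ⟨h1, h2⟩
    refine ⟨?_, exch_del h2⟩
    intro B hB
    rw [mem_del] at hB
    rw [Finset.mem_powerset, Finset.subset_erase]
    exact ⟨Finset.mem_powerset.mp (h1 hB.1), hB.2⟩
  con := by
    rintro S F x hx ⟨h1, h2⟩
    refine ⟨?_, exch_con h2⟩
    intro B hB
    rw [mem_con] at hB
    rw [Finset.mem_powerset, Finset.subset_erase]
    exact ⟨(Finset.subset_insert x B).trans (Finset.mem_powerset.mp (h1 hB.2)), hB.1⟩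

theorem ExK_empty (S : Finset ℕ) : ExK S ∅ :=
  ⟨Finset.empty_subset _, fun B hB => absurd hB (Finset.notMem_empty B)⟩

theorem num_zero : num ExK 0 = 2 := by
  unfold num cnt
  have : {F | ExK (range 0) F} = {∅, {∅}} := by
    ext F
    simp only [Set.mem_ofPred_eq, Set.mem_insert_iff, Set.mem_singleton_iff]
    constructor
    · rintro ⟨h, -⟩
      rw [Finset.range_zero, Finset.powerset_empty] at h
      exact Finset.subset_singleton_iff.mp h
    · rintro (rfl | rfl)
      · exact ExK_empty _
      · refine ⟨by simp, ?_⟩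
        intro B hB B' hB' a ha
        rw [Finset.mem_singleton] at hB
        rw [hB] at ha
        exact absurd ha (Finset.notMem_empty a)
  rw [this, Set.ncard_pair]
  exact (Finset.singleton_ne_empty _).symm

/-- complements of `stable` families of `r`-sets are exchange families -/
theorem exch_compl {S : Finset ℕ} {r : ℕ} {X : Finset (Finset ℕ)}
    (hX : ∀ B ∈ X, ∀ a ∈ B, ∀ b, b ∉ B → insert b (B.erase a) ∉ X) :
    Exch ((S.powersetCard r).filter (fun B => B ∉ X)) := by
  intro B hB B' hB' a ha ha'
  rw [Finset.mem_filter, Finset.mem_powersetCard] at hB hB'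
  -- the candidates
  have hne : (B' \ B).Nonempty := by
    rw [Finset.sdiff_nonempty]
    intro h
    have := Finset.eq_of_subset_of_card_le h (by rw [hB.1.2, hB'.1.2])
    rw [this] at ha'; exact ha' ha
  have hcand : ∀ y ∈ B' \ B, insert y (B.erase a) ∈ S.powersetCard r := by
    intro y hy
    rw [Finset.mem_sdiff] at hy
    rw [Finset.mem_powersetCard]
    constructor
    · intro w hw
      rcases Finset.mem_insert.mp hw with rfl | hw
      · exact hB'.1.1 hy.1
      · exact hB.1.1 (Finset.mem_of_mem_erase hw)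
    · rw [Finset.card_insert_of_notMem (fun h => hy.2 (Finset.mem_of_mem_erase h)),
        Finset.card_erase_of_mem ha, hB.1.2]
      have : 0 < B.card := Finset.card_pos.mpr ⟨a, ha⟩
      omega
  by_contra hcon
  push Not at hcon
  have hall : ∀ y ∈ B' \ B, insert y (B.erase a) ∈ X := by
    intro y hy
    have hy' := Finset.mem_sdiff.mp hy
    by_contra h
    exact hcon y hy'.1 hy'.2 (Finset.mem_filter.mpr ⟨hcand y hy, h⟩)
  obtain ⟨y, hy⟩ := hne
  have hy' := Finset.mem_sdiff.mp hy
  by_cases h2 : ∃ y' ∈ B' \ B, y' ≠ y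
  · obtain ⟨y', hy1, hne'⟩ := h2
    have hy1' := Finset.mem_sdiff.mp hy1
    have h3 := hX _ (hall y hy) y (Finset.mem_insert_self _ _) y' (by
      intro h
      rcases Finset.mem_insert.mp h with h | h
      · exact hne' h
      · exact hy1'.2 (Finset.mem_of_mem_erase h))
    apply h3
    have : (insert y (B.erase a)).erase y = B.erase a :=
      Finset.erase_insert (fun h => hy'.2 (Finset.mem_of_mem_erase h))
    rw [this]
    exact hall y' hy1
  · push Not at h2
    have hsing : B' \ B = {y} := by
      ext w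
      rw [Finset.mem_singleton]
      exact ⟨fun h => h2 w h, fun h => h ▸ hy⟩
    have hcard : (B \ B').card = 1 := by
      have e1 := Finset.card_sdiff_add_card_inter B B'
      have e2 := Finset.card_sdiff_add_card_inter B' B
      rw [hsing, Finset.card_singleton] at e2
      rw [Finset.inter_comm] at e2
      rw [hB.1.2] at e1
      rw [hB'.1.2] at e2
      omega
    have hsing' : B \ B' = {a} := by
      obtain ⟨w, hw⟩ := Finset.card_eq_one.mp hcard
      have : a ∈ B \ B' := Finset.mem_sdiff.mpr ⟨ha, ha'⟩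
      rw [hw, Finset.mem_singleton] at this
      rw [hw, this]
    have : insert y (B.erase a) = B' := by
      ext w
      constructor
      · intro h
        rcases Finset.mem_insert.mp h with rfl | h
        · exact hy'.1
        · by_contra hw
          have : w ∈ B \ B' := Finset.mem_sdiff.mpr ⟨Finset.mem_of_mem_erase h, hw⟩
          rw [hsing', Finset.mem_singleton] at this
          exact (Finset.ne_of_mem_erase h) this
      · intro h
        by_cases hw : w ∈ B
        · apply Finset.mem_insert_of_mem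
          rw [Finset.mem_erase]
          exact ⟨fun e => ha' (e ▸ h), hw⟩
        · have : w ∈ B' \ B := Finset.mem_sdiff.mpr ⟨h, hw⟩
          rw [hsing, Finset.mem_singleton] at this
          rw [this]; exact Finset.mem_insert_self _ _
    have hX' := hall y hy
    rw [this] at hX'
    exact hB'.2 hX'

/-- Knuth's lower bound (with the classes of Graham and Sloane). -/
theorem knuth (n r : ℕ) (hn : 1 ≤ n) :
    ∃ q, n.choose r ≤ n * q ∧ 2 ^ q ≤ num ExK n := by
  classical
  have : NeZero n := ⟨by omega⟩
  -- residue classes of the sum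
  let s : Finset ℕ → ZMod n := fun B => ∑ i ∈ B, (i : ZMod n)
  let P := (range n).powersetCard r
  have hPcard : P.card = n.choose r := by simp [P]
  obtain ⟨a, ha⟩ : ∃ a : ZMod n, n.choose r ≤ n * (P.filter (fun B => s B = a)).card := by
    obtain ⟨a, -, ha⟩ := Finset.exists_max_image (Finset.univ : Finset (ZMod n))
      (fun a => (P.filter (fun B => s B = a)).card) ⟨0, Finset.mem_univ _⟩
    refine ⟨a, ?_⟩
    rw [← hPcard, Finset.card_eq_sum_card_fiberwise (f := s) (t := Finset.univ)
      (fun _ _ => Finset.mem_coe.mpr (Finset.mem_univ _))]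
    calc ∑ b : ZMod n, (P.filter (fun B => s B = b)).card
        ≤ ∑ _b : ZMod n, (P.filter (fun B => s B = a)).card :=
          Finset.sum_le_sum (fun b hb => ha b hb)
      _ = n * (P.filter (fun B => s B = a)).card := by
          rw [Finset.sum_const, Finset.card_univ, ZMod.card, smul_eq_mul]
  let Q := P.filter (fun B => s B = a)
  have hQ : ∀ B ∈ Q, ∀ x ∈ B, ∀ b ∈ range n, b ∉ B → insert b (B.erase x) ∉ Q := by
    intro B hB x hx b hbn hb hmem
    have h1 : s B = a := (Finset.mem_filter.mp hB).2
    have h2 : s (insert b (B.erase x)) = a := (Finset.mem_filter.mp hmem).2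
    have hBn : B ⊆ range n := (Finset.mem_powersetCard.mp (Finset.mem_filter.mp hB).1).1
    have e1 : s B = (x : ZMod n) + s (B.erase x) := by
      change ∑ i ∈ B, (i : ZMod n) = _ + ∑ i ∈ B.erase x, (i : ZMod n)
      rw [Finset.add_sum_erase _ _ hx]
    have e2 : s (insert b (B.erase x)) = (b : ZMod n) + s (B.erase x) := by
      change ∑ i ∈ insert b (B.erase x), (i : ZMod n) = _ + ∑ i ∈ B.erase x, (i : ZMod n)
      rw [Finset.sum_insert (fun h => hb (Finset.mem_of_mem_erase h))]
    rw [h1] at e1
    rw [h2, e1] at e2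
    have e3 : (x : ZMod n) = (b : ZMod n) := add_right_cancel e2
    have hxn : x < n := Finset.mem_range.mp (hBn hx)
    have hbn' : b < n := Finset.mem_range.mp hbn
    have e4 : x = b := by
      have := congrArg ZMod.val e3
      rwa [ZMod.val_natCast_of_lt hxn, ZMod.val_natCast_of_lt hbn'] at this
    exact hb (e4 ▸ hx)
  -- the injection
  have hcard : (Q.powerset : Finset (Finset (Finset ℕ))).card ≤ num ExK n := by
    unfold num cnt
    rw [← Set.ncard_coe_finset]
    apply Set.ncard_le_ncard_of_injOn (fun X => P.filter (fun B => B ∉ X)) _ _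
      (fin_cls ExK_MC _)
    · intro X hX
      have hXQ : X ⊆ Q := Finset.mem_powerset.mp (Finset.mem_coe.mp hX)
      refine ⟨?_, ?_⟩
      · intro B hB
        rw [Finset.mem_powerset]
        exact (Finset.mem_powersetCard.mp (Finset.mem_filter.mp hB).1).1
      · apply exch_compl
        intro B hB x hx b hb hmem
        have hmem' := hXQ hmem
        have hbn : b ∈ range n :=
          (Finset.mem_powersetCard.mp (Finset.mem_filter.mp hmem').1).1
            (Finset.mem_insert_self _ _)
        exact hQ B (hXQ hB) x hx b hbn hb hmem'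
    · intro X hX Y hY h
      have hXQ : X ⊆ Q := Finset.mem_powerset.mp (Finset.mem_coe.mp hX)
      have hYQ : Y ⊆ Q := Finset.mem_powerset.mp (Finset.mem_coe.mp hY)
      have key : ∀ Z W : Finset (Finset ℕ), Z ⊆ Q → P.filter (fun B => B ∉ Z) =
          P.filter (fun B => B ∉ W) → Z ⊆ W := by
        intro Z W hZ h B hB
        by_contra hBW
        have hBP : B ∈ P := (Finset.mem_filter.mp (hZ hB)).1
        have : B ∈ P.filter (fun B => B ∉ W) := Finset.mem_filter.mpr ⟨hBP, hBW⟩
        rw [← h] at this
        exact (Finset.mem_filter.mp this).2 hB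
      exact Finset.Subset.antisymm (key X Y hXQ h) (key Y X hYQ h.symm)
  refine ⟨Q.card, ha, ?_⟩
  rw [← Finset.card_powerset]
  exact hcard

end Pool.Agent.Helper3.MAS
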