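import Mathlib

/-!
Counting orbits in an invariant subset.
-/

namespace Pool.Agent.Helper3.MAS

open MulAction

/-- Burnside's lemma for an invariant subset. -/
theorem orbit_count {G X : Type*} [Group G] [Finite G] [MulAction G X] [Finite X] (P : Set X)
    (hP : ∀ (g : G) (x : X), x ∈ P → g • x ∈ P) [Fintype G] :
    (Quotient.mk (orbitRel G X) '' P).ncard * Fintype.card G =
      ∑ g : G, {x | x ∈ P ∧ g • x = x}.ncard := by
  classical
  let S : SubMulAction G X := ⟨P, fun g {x} hx => hP g x hx⟩
  have hfin : Finite S := Subtype.finite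
  have : Fintype S := Fintype.ofFinite _
  have : Fintype (Quotient (orbitRel G S)) := Fintype.ofFinite _
  have : ∀ g : G, Fintype (fixedBy S g) := fun g => Fintype.ofFinite _
  have hB := sum_card_fixedBy_eq_card_orbits_mul_card_group G S
  have h1 : (Quotient.mk (orbitRel G X) '' P).ncard = Fintype.card (Quotient (orbitRel G S)) := by
    rw [← Nat.card_eq_fintype_card, ← Nat.card_coe_set_eq]
    symm
    let φ : Quotient (orbitRel G S) → ↥(Quotient.mk (orbitRel G X) '' P) :=
      Quotient.lift (fun s : S => ⟨Quotient.mk _ (s : X), ⟨(s : X), s.2, rfl⟩⟩) (by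
        intro a b hab
        apply Subtype.ext
        apply Quotient.sound
        obtain ⟨g, hg⟩ := hab
        exact ⟨g, congrArg Subtype.val hg⟩)
    apply Nat.card_eq_of_bijective φ
    constructor
    · intro a b
      induction a using Quotient.inductionOn with
      | h a =>
      induction b using Quotient.inductionOn with
      | h b =>
      intro h
      have h' : Quotient.mk (orbitRel G X) (a : X) = Quotient.mk (orbitRel G X) (b : X) :=
        congrArg Subtype.val h
      obtain ⟨g, hg⟩ := Quotient.exact h'
      apply Quotient.sound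
      exact ⟨g, Subtype.ext hg⟩
    · rintro ⟨q, x, hx, rfl⟩
      exact ⟨Quotient.mk _ ⟨x, hx⟩, rfl⟩
  rw [h1, ← hB]
  apply Finset.sum_congr rfl
  intro g _
  rw [← Nat.card_eq_fintype_card, ← Nat.card_coe_set_eq]
  apply Nat.card_congr
  exact
    { toFun := fun s => ⟨(s.1 : X), s.1.2, congrArg Subtype.val s.2⟩
      invFun := fun x => ⟨⟨x.1, x.2.1⟩, Subtype.ext x.2.2⟩
      left_inv := fun s => rfl
      right_inv := fun x => rfl }

end Pool.Agent.Helper3.MAS
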