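import Pool.Agent.Helper3.MAS.Defs
import Pool.Agent.Helper3.MAS.Exch
import Pool.Agent.Helper3.MAS.Orb

/-!
Labelled matroids as exchange families of subsets of `ℕ`.
-/

namespace Pool.Agent.Helper3.MAS

open Finset MulAction

variable {n : ℕ}

/-- the subset of `Fin n` given by a set of natural numbers -/
def dn (n : ℕ) (B : Finset ℕ) : Set (Fin n) := {i | (i : ℕ) ∈ B}

open Classical in
/-- the set of natural numbers given by a subset of `Fin n` -/
noncomputable def up (X : Set (Fin n)) : Finset ℕ :=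
  (range n).filter (fun k => ∃ h : k < n, (⟨k, h⟩ : Fin n) ∈ X)

theorem mem_up' {X : Set (Fin n)} {k : ℕ} :
    k ∈ up X ↔ ∃ h : k < n, (⟨k, h⟩ : Fin n) ∈ X := by
  simp only [up, Finset.mem_filter, Finset.mem_range]
  exact ⟨fun h => h.2, fun h => ⟨h.1, h⟩⟩

theorem mem_dn {B : Finset ℕ} {i : Fin n} : i ∈ dn n B ↔ (i : ℕ) ∈ B := Iff.rfl

theorem dn_up (X : Set (Fin n)) : dn n (up X) = X := by
  ext i
  rw [mem_dn, mem_up']
  constructor
  · rintro ⟨h, hi⟩; exact hi
  · intro hi; exact ⟨i.2, hi⟩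

theorem up_dn {B : Finset ℕ} (hB : B ⊆ range n) : up (dn n B) = B := by
  ext k
  rw [mem_up']
  constructor
  · rintro ⟨h, hk⟩; exact hk
  · intro hk
    exact ⟨Finset.mem_range.mp (hB hk), hk⟩

theorem up_subset (X : Set (Fin n)) : up X ⊆ range n := by
  intro k hk
  exact Finset.mem_range.mpr (mem_up'.mp hk).1

theorem mem_up {X : Set (Fin n)} {i : Fin n} : (i : ℕ) ∈ up X ↔ i ∈ X := by
  have : i ∈ dn n (up X) ↔ i ∈ X := by rw [dn_up]
  exact this

open Classical in
/-- the family of bases -/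
noncomputable def fam (M : LabelledMatroid n) : Finset (Finset ℕ) :=
  (range n).powerset.filter (fun B => M.1.IsBase (dn n B))

theorem mem_fam {M : LabelledMatroid n} {B : Finset ℕ} :
    B ∈ fam M ↔ B ⊆ range n ∧ M.1.IsBase (dn n B) := by
  simp only [fam, Finset.mem_filter, Finset.mem_powerset]

theorem isBase_iff (M : LabelledMatroid n) (X : Set (Fin n)) :
    M.1.IsBase X ↔ up X ∈ fam M := by
  rw [mem_fam, dn_up]
  exact ⟨fun h => ⟨up_subset X, h⟩, fun h => h.2⟩

theorem fam_injective : Function.Injective (fam (n := n)) := by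
  intro M N h
  apply Subtype.ext
  apply Matroid.ext_isBase (by rw [M.2, N.2])
  intro B _
  rw [isBase_iff, isBase_iff, h]

theorem fam_nonempty (M : LabelledMatroid n) : (fam M).Nonempty := by
  obtain ⟨B, hB⟩ := M.1.exists_isBase
  exact ⟨up B, (isBase_iff M B).mp hB⟩

theorem fam_ExK (M : LabelledMatroid n) : ExK (range n) (fam M) := by
  refine ⟨fun B hB => Finset.mem_powerset.mpr (mem_fam.mp hB).1, ?_⟩
  intro B hB B' hB' x hx hx'
  rw [mem_fam] at hB hB'
  have hxn : x < n := Finset.mem_range.mp (hB.1 hx)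
  obtain ⟨y, hy, hyb⟩ := M.1.isBase_exchange (dn n B) (dn n B') hB.2 hB'.2 ⟨x, hxn⟩
    ⟨hx, hx'⟩
  refine ⟨y, hy.1, hy.2, ?_⟩
  rw [mem_fam]
  constructor
  · intro w hw
    rcases Finset.mem_insert.mp hw with rfl | hw
    · exact Finset.mem_range.mpr y.2
    · exact hB.1 (Finset.mem_of_mem_erase hw)
  · have : dn n (insert (y : ℕ) (B.erase x)) = insert y (dn n B \ {⟨x, hxn⟩}) := by
      ext i
      simp only [mem_dn, Finset.mem_insert, Finset.mem_erase, Set.mem_insert_iff,
        Set.mem_sdiff, Set.mem_singleton_iff, Fin.ext_iff]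
      tauto
    rw [this]; exact hyb

/-- every nonempty exchange family comes from a matroid -/
theorem exists_of_ExK {F : Finset (Finset ℕ)} (hF : ExK (range n) F) (hne : F.Nonempty) :
    ∃ M : LabelledMatroid n, fam M = F := by
  have hsub : ∀ B ∈ F, B ⊆ range n := fun B hB => Finset.mem_powerset.mp (hF.1 hB)
  let M : Matroid (Fin n) := Matroid.ofIsBaseOfFinite (E := Set.univ) Set.finite_univ
    (fun X => up X ∈ F)
    (by
      obtain ⟨B, hB⟩ := hne
      exact ⟨dn n B, by rw [up_dn (hsub B hB)]; exact hB⟩)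
    (by
      intro X Y hX hY a ha
      have ha1 : (a : ℕ) ∈ up X := mem_up.mpr ha.1
      have ha2 : (a : ℕ) ∉ up Y := fun h => ha.2 (mem_up.mp h)
      obtain ⟨y, hy, hyX, hyF⟩ := hF.2 _ hX _ hY a ha1 ha2
      have hyn : y < n := Finset.mem_range.mp (up_subset Y hy)
      refine ⟨⟨y, hyn⟩, ⟨?_, ?_⟩, ?_⟩
      · exact (mem_up (i := ⟨y, hyn⟩)).mp hy
      · intro h; exact hyX ((mem_up (i := ⟨y, hyn⟩)).mpr h)
      · have : up (insert (⟨y, hyn⟩ : Fin n) (X \ {a})) = insert y ((up X).erase a) := by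
          ext k
          simp only [mem_up', Set.mem_insert_iff, Set.mem_sdiff,
            Set.mem_singleton_iff, Finset.mem_insert, Finset.mem_erase, Fin.ext_iff]
          constructor
          · rintro ⟨hk, h | ⟨h1, h2⟩⟩
            · exact Or.inl h
            · exact Or.inr ⟨h2, hk, h1⟩
          · rintro (rfl | ⟨h2, hk, h1⟩)
            · exact ⟨hyn, Or.inl rfl⟩
            · exact ⟨hk, Or.inr ⟨h1, h2⟩⟩
        change up (insert (⟨y, hyn⟩ : Fin n) (X \ {a})) ∈ F
        rw [this]; exact hyF)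
    (fun B _ => Set.subset_univ B)
  have hE : M.E = Set.univ := rfl
  refine ⟨⟨M, hE⟩, ?_⟩
  ext B
  refine mem_fam.trans ?_
  change B ⊆ range n ∧ up (dn n B) ∈ F ↔ B ∈ F
  constructor
  · rintro ⟨h1, h2⟩
    rwa [up_dn h1] at h2
  · intro h
    exact ⟨hsub B h, by rw [up_dn (hsub B h)]; exact h⟩

instance : Finite (LabelledMatroid n) := by
  have : Finite {F : Finset (Finset ℕ) // ExK (range n) F} := (fin_cls ExK_MC (range n)).to_subtype
  exact Finite.of_injective (fun M : LabelledMatroid n =>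
    (⟨fam M, fam_ExK M⟩ : {F : Finset (Finset ℕ) // ExK (range n) F})) (by
      intro M N h
      exact fam_injective (congrArg Subtype.val h))

/-- there is one exchange family more than there are matroids -/
theorem card_labelled (n : ℕ) : Nat.card (LabelledMatroid n) + 1 = num ExK n := by
  unfold num cnt
  have h1 : {F | ExK (range n) F} = insert ∅ (Set.range (fam (n := n))) := by
    ext F
    simp only [Set.mem_ofPred_eq, Set.mem_insert_iff, Set.mem_range]
    constructor
    · intro hF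
      rcases Finset.eq_empty_or_nonempty F with h | h
      · exact Or.inl h
      · exact Or.inr (exists_of_ExK hF h)
    · rintro (rfl | ⟨M, rfl⟩)
      · exact ExK_empty _
      · exact fam_ExK M
  rw [h1, Set.ncard_insert_of_notMem _ (Set.finite_range _), ← Nat.card_coe_set_eq,
    Nat.card_range_of_injective fam_injective]
  rintro ⟨M, hM⟩
  exact (fam_nonempty M).ne_empty hM

/-- the permutation of `ℕ` given by a permutation of `Fin n` -/
noncomputable def ext (σ : Equiv.Perm (Fin n)) : Equiv.Perm ℕ :=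
  σ.viaEmbedding Fin.valEmbedding

theorem ext_apply (σ : Equiv.Perm (Fin n)) (i : Fin n) : ext σ i = σ i :=
  Equiv.Perm.viaEmbedding_apply σ Fin.valEmbedding i

/-- an automorphism of `M` fixes the family of bases -/
theorem rl_fam {M : LabelledMatroid n} {σ : Equiv.Perm (Fin n)} (h : IsIso σ M M) :
    rl (ext σ) (fam M) = fam M := by
  have himg : ∀ B : Finset ℕ, B ⊆ range n → B.image (ext σ) ⊆ range n ∧
      dn n (B.image (ext σ)) = σ '' (dn n B) := by
    intro B hB
    constructor
    · intro y hy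
      obtain ⟨x, hx, rfl⟩ := Finset.mem_image.mp hy
      have hxn : x < n := Finset.mem_range.mp (hB hx)
      have : ext σ x = σ ⟨x, hxn⟩ := ext_apply σ ⟨x, hxn⟩
      rw [this]; exact Finset.mem_range.mpr (σ ⟨x, hxn⟩).2
    · ext i
      simp only [mem_dn, Finset.mem_image, Set.mem_image]
      constructor
      · rintro ⟨x, hx, hxi⟩
        have hxn : x < n := Finset.mem_range.mp (hB hx)
        refine ⟨⟨x, hxn⟩, hx, ?_⟩
        apply Fin.ext
        rw [← hxi]; exact (ext_apply σ ⟨x, hxn⟩).symm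
      · rintro ⟨x, hx, hxi⟩
        exact ⟨x, hx, by rw [ext_apply, hxi]⟩
  have hsub : rl (ext σ) (fam M) ⊆ fam M := by
    intro B hB
    obtain ⟨C, hC, rfl⟩ := Finset.mem_image.mp hB
    rw [mem_fam] at hC ⊢
    obtain ⟨h1, h2⟩ := himg C hC.1
    refine ⟨h1, ?_⟩
    rw [h2]
    exact (h _).mp hC.2
  apply Finset.eq_of_subset_of_card_le hsub
  unfold rl
  rw [Finset.card_image_of_injective _ (Finset.image_injective (ext σ).injective)]

/-- the number of matroids with a given nontrivial automorphism -/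
theorem card_fixed_le {m : ℕ} (σ : Equiv.Perm (Fin (m + 2))) (hσ : σ ≠ 1) :
    {M : LabelledMatroid (m + 2) | IsIso σ M M}.ncard ≤ num ExK (m + 1) * num ExK m := by
  obtain ⟨z, hz⟩ : ∃ z, σ z ≠ z := by
    by_contra h
    push Not at h
    exact hσ (Equiv.ext h)
  have h1 : {M : LabelledMatroid (m + 2) | IsIso σ M M}.ncard ≤
      {F | ExK (range (m + 2)) F ∧ rl (ext σ) F = F}.ncard := by
    apply Set.ncard_le_ncard_of_injOn fam _ fam_injective.injOn
      ((fin_cls ExK_MC _).subset (fun F hF => hF.1))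
    intro M hM
    exact ⟨fam_ExK M, rl_fam hM⟩
  refine h1.trans ?_
  apply cnt_fixed_le ExK_MC (Finset.card_range _) (x := (σ z : ℕ)) (z := (z : ℕ))
    (Finset.mem_range.mpr (σ z).2) (Finset.mem_range.mpr z.2) (ext σ) (ext_apply σ z)
  intro h
  exact hz (Fin.ext h.symm)

end Pool.Agent.Helper3.MAS
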