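import Mathlib

/-!
Labelled and unlabelled matroids on `n` elements.
-/

namespace Pool.Agent.Helper3.MAS

/-- The labelled matroids on the ground set `{0, ..., n-1}`. -/
def LabelledMatroid (n : ℕ) : Type := {M : Matroid (Fin n) // M.E = Set.univ}

/-- The permutation `σ` of the ground set is an isomorphism from `M` to `N`. -/
def IsIso {n : ℕ} (σ : Equiv.Perm (Fin n)) (M N : LabelledMatroid n) : Prop :=
  ∀ B : Set (Fin n), M.1.IsBase B ↔ N.1.IsBase (σ '' B)

/-- Isomorphism of labelled matroids. -/
def isoSetoid (n : ℕ) : Setoid (LabelledMatroid n) where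
  r M N := ∃ σ : Equiv.Perm (Fin n), IsIso σ M N
  iseqv :=
    { refl := fun M => ⟨1, fun B => by simp⟩
      symm := by
        rintro M N ⟨σ, hσ⟩
        refine ⟨σ.symm, fun B => ?_⟩
        rw [hσ, Equiv.image_symm_eq_preimage, Set.image_preimage_eq B σ.surjective]
      trans := by
        rintro M N O ⟨σ, hσ⟩ ⟨τ, hτ⟩
        refine ⟨τ * σ, fun B => ?_⟩
        rw [hσ, hτ, ← Set.image_comp]
        rfl }

/-- `P` is closed under isomorphism. -/
def IsoClosed {n : ℕ} (P : Set (LabelledMatroid n)) : Prop :=
  ∀ M N, (∃ σ : Equiv.Perm (Fin n), IsIso σ M N) → M ∈ P → N ∈ P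

/-- The proportion of members of `P` among the labelled matroids on `n` elements. -/
noncomputable def labelledProportion {n : ℕ} (P : Set (LabelledMatroid n)) : ℝ :=
  (P.ncard : ℝ) / Nat.card (LabelledMatroid n)

/-- The proportion of the isomorphism classes of members of `P` among all isomorphism classes of
matroids on `n` elements. -/
noncomputable def unlabelledProportion {n : ℕ} (P : Set (LabelledMatroid n)) : ℝ :=
  ((Quotient.mk (isoSetoid n) '' P).ncard : ℝ) / Nat.card (Quotient (isoSetoid n))

/-- The only automorphism of `M` is the identity. -/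
def Asymmetric {n : ℕ} (M : LabelledMatroid n) : Prop :=
  ∀ σ : Equiv.Perm (Fin n), IsIso σ M M → σ = 1

end Pool.Agent.Helper3.MAS
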