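import Mathlib

/-!
Families of finite subsets of `ℕ`, classes closed under deletion, contraction and relabelling,
and the basic counting inequalities.
-/

namespace Pool.Agent.Helper3.MAS

open Finset

/-- members avoiding `x` -/
def del (x : ℕ) (F : Finset (Finset ℕ)) : Finset (Finset ℕ) := F.filter (fun B => x ∉ B)

/-- members containing `x`, with `x` removed -/
def con (x : ℕ) (F : Finset (Finset ℕ)) : Finset (Finset ℕ) :=
  (F.filter (fun B => x ∈ B)).image (fun B => B.erase x)

/-- relabelling -/
def rl (σ : Equiv.Perm ℕ) (F : Finset (Finset ℕ)) : Finset (Finset ℕ) :=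
  F.image (fun B => B.image σ)

/-- a class of families, closed under deletion, contraction and relabelling -/
structure MC (K : Finset ℕ → Finset (Finset ℕ) → Prop) : Prop where
  sub : ∀ {S F}, K S F → F ⊆ S.powerset
  perm : ∀ {S F} (σ : Equiv.Perm ℕ), K S F → K (S.image σ) (rl σ F)
  del : ∀ {S F x}, x ∈ S → K S F → K (S.erase x) (del x F)
  con : ∀ {S F x}, x ∈ S → K S F → K (S.erase x) (con x F)

variable {K : Finset ℕ → Finset (Finset ℕ) → Prop}

/-- number of members of the class on the ground set `S` -/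
noncomputable def cnt (K : Finset ℕ → Finset (Finset ℕ) → Prop) (S : Finset ℕ) : ℕ :=
  Set.ncard {F | K S F}

theorem fin_cls (hK : MC K) (S : Finset ℕ) : {F | K S F}.Finite := by
  apply Set.Finite.subset (Finset.finite_toSet S.powerset.powerset)
  intro F hF
  exact Finset.mem_coe.mpr (Finset.mem_powerset.mpr (hK.sub hF))

theorem rl_rl (σ τ : Equiv.Perm ℕ) (F : Finset (Finset ℕ)) : rl σ (rl τ F) = rl (σ * τ) F := by
  unfold rl
  rw [Finset.image_image]
  congr 1
  funext B
  simp only [Function.comp_apply, Finset.image_image]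
  rfl

theorem rl_one (F : Finset (Finset ℕ)) : rl 1 F = F := by
  unfold rl
  ext B
  simp

theorem rl_injective (σ : Equiv.Perm ℕ) : Function.Injective (rl σ) := by
  intro F F' h
  have := congrArg (rl σ⁻¹) h
  simpa only [rl_rl, inv_mul_cancel, rl_one] using this

theorem mem_rl {σ : Equiv.Perm ℕ} {F : Finset (Finset ℕ)} {B : Finset ℕ} :
    B.image σ ∈ rl σ F ↔ B ∈ F := by
  unfold rl
  rw [Finset.mem_image]
  constructor
  · rintro ⟨C, hC, h⟩
    have := Finset.image_injective σ.injective h
    rwa [← this]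
  · intro h; exact ⟨B, h, rfl⟩

theorem cnt_le_of_perm (hK : MC K) (S : Finset ℕ) (σ : Equiv.Perm ℕ) :
    cnt K S ≤ cnt K (S.image σ) := by
  unfold cnt
  apply Set.ncard_le_ncard_of_injOn (rl σ) _ _ (fin_cls hK _)
  · intro F hF; exact hK.perm σ hF
  · intro F _ F' _ h; exact rl_injective σ h

/-- any two finite subsets of `ℕ` of the same size are related by a permutation -/
theorem exists_perm {S T : Finset ℕ} (h : S.card = T.card) :
    ∃ σ : Equiv.Perm ℕ, S.image σ = T := by
  classical
  have e : S ≃ T := Finset.equivOfCardEq h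
  have e' : (↥(S : Set ℕ)) ≃ ↥(T : Set ℕ) := e
  obtain ⟨σ, hσ⟩ : ∃ σ : Equiv.Perm ℕ, ∀ x : S, σ x = e x := by
    have : Finite (↥(S : Set ℕ)) := by infer_instance
    refine ⟨e.extendSubtype, fun x => ?_⟩
    exact Equiv.extendSubtype_apply_of_mem e x.1 x.2
  refine ⟨σ, ?_⟩
  apply Finset.eq_of_subset_of_card_le
  · intro y hy
    obtain ⟨x, hx, rfl⟩ := Finset.mem_image.mp hy
    rw [hσ ⟨x, hx⟩]; exact (e ⟨x, hx⟩).2
  · rw [Finset.card_image_of_injective _ σ.injective, h]

theorem cnt_eq_of_card (hK : MC K) {S T : Finset ℕ} (h : S.card = T.card) :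
    cnt K S = cnt K T := by
  obtain ⟨σ, hσ⟩ := exists_perm h
  obtain ⟨τ, hτ⟩ := exists_perm h.symm
  apply le_antisymm
  · rw [← hσ]; exact cnt_le_of_perm hK S σ
  · rw [← hτ]; exact cnt_le_of_perm hK T τ

/-- the counting function of the class -/
noncomputable def num (K : Finset ℕ → Finset (Finset ℕ) → Prop) (n : ℕ) : ℕ := cnt K (range n)

theorem cnt_eq_num (hK : MC K) {S : Finset ℕ} {n : ℕ} (h : S.card = n) : cnt K S = num K n := by
  apply cnt_eq_of_card hK; rw [h, Finset.card_range]

theorem mem_of_del_con {F F' : Finset (Finset ℕ)} {x : ℕ} (h1 : del x F = del x F')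
    (h2 : con x F = con x F') {B : Finset ℕ} (hB : B ∈ F) : B ∈ F' := by
  by_cases hx : x ∈ B
  · have : B.erase x ∈ con x F := Finset.mem_image.mpr ⟨B, Finset.mem_filter.mpr ⟨hB, hx⟩, rfl⟩
    rw [h2] at this
    obtain ⟨C, hC, hCB⟩ := Finset.mem_image.mp this
    rw [Finset.mem_filter] at hC
    have : C = B := by
      rw [← Finset.insert_erase hC.2, ← Finset.insert_erase hx, hCB]
    rw [← this]; exact hC.1
  · have : B ∈ del x F := Finset.mem_filter.mpr ⟨hB, hx⟩
    rw [h1] at this
    exact (Finset.mem_filter.mp this).1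

/-- members are determined by deletion and contraction -/
theorem del_con_inj {F F' : Finset (Finset ℕ)} {x : ℕ} (h1 : del x F = del x F')
    (h2 : con x F = con x F') : F = F' := by
  ext B
  exact ⟨mem_of_del_con h1 h2, mem_of_del_con h1.symm h2.symm⟩

theorem num_succ_le (hK : MC K) (n : ℕ) : num K (n + 1) ≤ num K n * num K n := by
  have hx : n ∈ range (n + 1) := Finset.self_mem_range_succ n
  have hc : ((range (n + 1)).erase n).card = n := by
    rw [Finset.card_erase_of_mem hx, Finset.card_range]; rfl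
  rw [← cnt_eq_num hK hc]
  unfold num cnt
  rw [← Set.ncard_prod]
  apply Set.ncard_le_ncard_of_injOn (fun F => (del n F, con n F)) _ _
    ((fin_cls hK _).prod (fin_cls hK _))
  · intro F hF
    exact ⟨hK.del hx hF, hK.con hx hF⟩
  · intro F _ F' _ h
    simp only [Prod.mk.injEq] at h
    exact del_con_inj h.1 h.2

theorem num_le_of_le (hK : MC K) {m n : ℕ} (h : m ≤ n) :
    num K n ≤ (num K m) ^ (2 ^ (n - m)) := by
  induction n, h using Nat.le_induction with
  | base => simp
  | succ n hmn ih =>
    calc num K (n + 1) ≤ num K n * num K n := num_succ_le hK n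
      _ ≤ (num K m) ^ (2 ^ (n - m)) * (num K m) ^ (2 ^ (n - m)) := Nat.mul_le_mul ih ih
      _ = (num K m) ^ (2 ^ (n + 1 - m)) := by
          rw [← pow_add]
          congr 1
          rw [Nat.succ_sub hmn, pow_succ]; ring

/-- the members fixed by a relabelling `σ` moving `x`: they are determined by the members avoiding
`x` and the members containing `x` and `σ⁻¹ x`. -/
theorem cnt_fixed_le (hK : MC K) {S : Finset ℕ} {n : ℕ} (hS : S.card = n + 2) {x z : ℕ}
    (hx : x ∈ S) (hz : z ∈ S) (σ : Equiv.Perm ℕ) (hσ : σ z = x) (hzx : z ≠ x) :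
    Set.ncard {F | K S F ∧ rl σ F = F} ≤ num K (n + 1) * num K n := by
  have hz' : z ∈ S.erase x := Finset.mem_erase.mpr ⟨hzx, hz⟩
  have hc1 : (S.erase x).card = n + 1 := by rw [Finset.card_erase_of_mem hx, hS]; rfl
  have hc2 : ((S.erase x).erase z).card = n := by rw [Finset.card_erase_of_mem hz', hc1]; rfl
  rw [← cnt_eq_num hK hc1, ← cnt_eq_num hK hc2]
  unfold cnt
  rw [← Set.ncard_prod]
  apply Set.ncard_le_ncard_of_injOn (fun F => (del x F, con z (con x F))) _ _
    ((fin_cls hK _).prod (fin_cls hK _))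
  · rintro F ⟨hF, -⟩
    exact ⟨hK.del hx hF, hK.con hz' (hK.con hx hF)⟩
  · have key : ∀ F F' : Finset (Finset ℕ), rl σ F = F → rl σ F' = F' → del x F = del x F' →
        con z (con x F) = con z (con x F') → ∀ B ∈ F, B ∈ F' := by
      intro F F' hF hF' h1 h2 B hB
      by_cases hxB : x ∈ B
      · by_cases hzB : z ∈ B
        · have e1 : B.erase x ∈ con x F :=
            Finset.mem_image.mpr ⟨B, Finset.mem_filter.mpr ⟨hB, hxB⟩, rfl⟩
          have e2 : (B.erase x).erase z ∈ con z (con x F) :=
            Finset.mem_image.mpr ⟨B.erase x, Finset.mem_filter.mpr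
              ⟨e1, Finset.mem_erase.mpr ⟨hzx, hzB⟩⟩, rfl⟩
          rw [h2] at e2
          obtain ⟨C, hC, hCB⟩ := Finset.mem_image.mp e2
          rw [Finset.mem_filter] at hC
          have hC1 : C = B.erase x := by
            rw [← Finset.insert_erase hC.2, hCB,
              Finset.insert_erase (Finset.mem_erase.mpr ⟨hzx, hzB⟩)]
          obtain ⟨D, hD, hDB⟩ := Finset.mem_image.mp hC.1
          rw [Finset.mem_filter] at hD
          have hD1 : D = B := by
            rw [← Finset.insert_erase hD.2, hDB, hC1, Finset.insert_erase hxB]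
          rw [← hD1]; exact hD.1
        · have hx' : x ∉ B.image σ := by
            intro h
            obtain ⟨w, hw, hwx⟩ := Finset.mem_image.mp h
            have : w = z := σ.injective (hwx.trans hσ.symm)
            rw [this] at hw; exact hzB hw
          have e1 : B.image σ ∈ F := by rw [← hF]; exact mem_rl.mpr hB
          have e2 : B.image σ ∈ del x F := Finset.mem_filter.mpr ⟨e1, hx'⟩
          rw [h1] at e2
          have e3 : B.image σ ∈ F' := (Finset.mem_filter.mp e2).1
          rw [← hF'] at e3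
          exact mem_rl.mp e3
      · have e2 : B ∈ del x F := Finset.mem_filter.mpr ⟨hB, hxB⟩
        rw [h1] at e2
        exact (Finset.mem_filter.mp e2).1
    rintro F ⟨-, hF⟩ F' ⟨-, hF'⟩ h
    simp only [Prod.mk.injEq] at h
    ext B
    exact ⟨key F F' hF hF' h.1 h.2 B, key F' F hF' hF h.1.symm h.2.symm B⟩

end Pool.Agent.Helper3.MAS
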