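import Mathlib

/-!
A sequence `L` with `L (n+1) ≤ L n ^ 2`, `L 0 = 2` and Knuth's lower bound: outside a sparse set
`L (n-1) * L (n-2)` is much smaller than `L n`.
-/

namespace Pool.Agent.Helper3.MAS

/-- `log L(n) / 2^n` -/
noncomputable def v (L : ℕ → ℕ) (n : ℕ) : ℝ := Real.log (L n) / 2 ^ n

/-- the exceptional set -/
def bad (L : ℕ → ℕ) : Set ℕ := {n | 2 ≤ n ∧ v L n ≤ 4 / 5 * v L (n - 2)}

structure Growth (L : ℕ → ℕ) : Prop where
  zero : L 0 = 2
  step : ∀ n, L (n + 1) ≤ L n * L n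
  low : ∀ n, 1 ≤ n → ∃ q, n.choose (n / 2) ≤ n * q ∧ 2 ^ q ≤ L n

variable {L : ℕ → ℕ}

theorem two_pow_le (n : ℕ) : 2 ^ n ≤ (n + 1) * n.choose (n / 2) := by
  rw [← Nat.sum_range_choose n]
  calc ∑ m ∈ Finset.range (n + 1), n.choose m ≤ ∑ _m ∈ Finset.range (n + 1), n.choose (n / 2) :=
        Finset.sum_le_sum (fun m _ => Nat.choose_le_middle m n)
    _ = (n + 1) * n.choose (n / 2) := by rw [Finset.sum_const, Finset.card_range, smul_eq_mul]

theorem log_low (h : Growth L) (n : ℕ) :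
    Real.log 2 * 2 ^ n / ((n : ℝ) + 1) ^ 2 ≤ Real.log (L n) := by
  have hlog2 : 0 < Real.log 2 := Real.log_pos (by norm_num)
  rcases Nat.eq_zero_or_pos n with rfl | hn
  · rw [h.zero]; norm_num
  · obtain ⟨q, hq, hL⟩ := h.low n hn
    have h1 : (q : ℝ) * Real.log 2 ≤ Real.log (L n) := by
      rw [← Real.log_pow]
      apply Real.log_le_log (by positivity)
      exact_mod_cast hL
    have h2 : (2 : ℝ) ^ n ≤ ((n : ℝ) + 1) ^ 2 * q := by
      have h3 : 2 ^ n ≤ (n + 1) * (n * q) := (two_pow_le n).trans (Nat.mul_le_mul_left _ hq)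
      have h4 : (n + 1) * (n * q) ≤ (n + 1) ^ 2 * q := by nlinarith
      exact_mod_cast h3.trans h4
    rw [div_le_iff₀ (by positivity)]
    calc Real.log 2 * 2 ^ n ≤ Real.log 2 * (((n : ℝ) + 1) ^ 2 * q) :=
          mul_le_mul_of_nonneg_left h2 hlog2.le
      _ = (q : ℝ) * Real.log 2 * ((n : ℝ) + 1) ^ 2 := by ring
      _ ≤ Real.log (L n) * ((n : ℝ) + 1) ^ 2 := mul_le_mul_of_nonneg_right h1 (by positivity)

theorem v_low (h : Growth L) (n : ℕ) : Real.log 2 / ((n : ℝ) + 1) ^ 2 ≤ v L n := by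
  unfold v
  rw [le_div_iff₀ (by positivity)]
  calc Real.log 2 / ((n : ℝ) + 1) ^ 2 * 2 ^ n = Real.log 2 * 2 ^ n / ((n : ℝ) + 1) ^ 2 := by ring
    _ ≤ Real.log (L n) := log_low h n

theorem v_pos (h : Growth L) (n : ℕ) : 0 < v L n :=
  lt_of_lt_of_le (div_pos (Real.log_pos (by norm_num)) (by positivity)) (v_low h n)

theorem L_pos (h : Growth L) (n : ℕ) : 1 < L n := by
  by_contra hc
  push Not at hc
  have h1 := v_pos h n
  have : v L n ≤ 0 := by
    unfold v
    apply div_nonpos_of_nonpos_of_nonneg _ (by positivity)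
    apply Real.log_nonpos (by positivity)
    exact_mod_cast hc
  linarith

theorem v_succ_le (h : Growth L) (n : ℕ) : v L (n + 1) ≤ v L n := by
  have h0 := L_pos h n
  have h1 := L_pos h (n + 1)
  unfold v
  rw [div_le_div_iff₀ (by positivity) (by positivity), pow_succ]
  have : Real.log (L (n + 1)) ≤ 2 * Real.log (L n) := by
    have e : (2 : ℝ) * Real.log (L n) = Real.log ((L n : ℝ) * L n) := by
      rw [Real.log_mul (by positivity) (by positivity)]; ring
    rw [e]
    apply Real.log_le_log (by positivity)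
    exact_mod_cast h.step n
  nlinarith [pow_pos (show (0 : ℝ) < 2 by norm_num) n]

theorem v_anti (h : Growth L) : Antitone (v L) := antitone_nat_of_succ_le (v_succ_le h)

theorem log_five_four : (1 / 5 : ℝ) ≤ Real.log (5 / 4) := by
  have := Real.one_sub_inv_le_log_of_pos (show (0 : ℝ) < 5 / 4 by norm_num)
  norm_num at this ⊢
  linarith

theorem bad_step (h : Growth L) {n : ℕ} (hn : n ∈ bad L) :
    1 / 5 ≤ Real.log (v L (n - 2)) - Real.log (v L n) := by
  have h1 : v L n * (5 / 4) ≤ v L (n - 2) := by linarith [hn.2]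
  have h2 : Real.log (v L n * (5 / 4)) ≤ Real.log (v L (n - 2)) :=
    Real.log_le_log (mul_pos (v_pos h n) (by norm_num)) h1
  rw [Real.log_mul (v_pos h n).ne' (by norm_num)] at h2
  linarith [log_five_four]

theorem bad_count_aux (h : Growth L) (N : ℕ) :
    (((bad L) ∩ Set.Iic (N + 1)).ncard : ℝ) / 5 ≤
      Real.log (v L 0) + Real.log (v L 1) - Real.log (v L N) - Real.log (v L (N + 1)) := by
  induction N with
  | zero =>
    have : (bad L) ∩ Set.Iic (0 + 1) = ∅ := by
      ext n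
      simp only [Set.mem_inter_iff, Set.mem_Iic, Set.mem_empty_iff_false, iff_false, not_and]
      intro hn
      have := hn.1
      omega
    rw [this, Set.ncard_empty]
    simp
  | succ N ih =>
    have hmono : Real.log (v L (N + 2)) ≤ Real.log (v L N) :=
      Real.log_le_log (v_pos h _) (v_anti h (by omega))
    by_cases hb : N + 2 ∈ bad L
    · have hs := bad_step h hb
      have hle : ((bad L) ∩ Set.Iic (N + 1 + 1)).ncard ≤ ((bad L) ∩ Set.Iic (N + 1)).ncard + 1 := by
        have : (bad L) ∩ Set.Iic (N + 1 + 1) ⊆ insert (N + 2) ((bad L) ∩ Set.Iic (N + 1)) := by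
          rintro n ⟨hn, hn2⟩
          rw [Set.mem_Iic] at hn2
          by_cases e : n = N + 2
          · exact Set.mem_insert_iff.mpr (Or.inl e)
          · exact Set.mem_insert_iff.mpr (Or.inr ⟨hn, by rw [Set.mem_Iic]; omega⟩)
        have hfin : (insert (N + 2) ((bad L) ∩ Set.Iic (N + 1))).Finite :=
          ((Set.finite_Iic _).inter_of_right _).insert _
        exact (Set.ncard_le_ncard this hfin).trans (Set.ncard_insert_le _ _)
      have hle' : (((bad L) ∩ Set.Iic (N + 1 + 1)).ncard : ℝ) ≤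
          ((bad L) ∩ Set.Iic (N + 1)).ncard + 1 := by exact_mod_cast hle
      have e : N + 2 - 2 = N := by omega
      rw [e] at hs
      have e2 : N + 1 + 1 = N + 2 := rfl
      rw [e2] at hle' ⊢
      linarith
    · have : (bad L) ∩ Set.Iic (N + 1 + 1) = (bad L) ∩ Set.Iic (N + 1) := by
        ext n
        simp only [Set.mem_inter_iff, Set.mem_Iic]
        constructor
        · rintro ⟨hn, hn2⟩
          refine ⟨hn, ?_⟩
          by_contra hc
          have : n = N + 2 := by omega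
          exact hb (this ▸ hn)
        · rintro ⟨hn, hn2⟩
          exact ⟨hn, by omega⟩
      rw [this]
      have e2 : N + 1 + 1 = N + 2 := rfl
      rw [e2]
      linarith

/-- the exceptional set has at most `20 log (N+1)` elements up to `N` -/
theorem bad_count (h : Growth L) (N : ℕ) :
    (((bad L) ∩ Set.Iic N).ncard : ℝ) ≤ 20 * Real.log (N + 1) := by
  rcases Nat.eq_zero_or_pos N with rfl | hN
  · have : (bad L) ∩ Set.Iic 0 = ∅ := by
      ext n
      simp only [Set.mem_inter_iff, Set.mem_Iic, Set.mem_empty_iff_false, iff_false, not_and]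
      intro hn
      have := hn.1
      omega
    rw [this, Set.ncard_empty]
    simp
  · obtain ⟨M, rfl⟩ : ∃ M, N = M + 1 := ⟨N - 1, by omega⟩
    have h1 := bad_count_aux h M
    have hv0 : v L 0 = Real.log 2 := by unfold v; rw [h.zero]; norm_num
    have h01 : Real.log (v L 1) ≤ Real.log (v L 0) :=
      Real.log_le_log (v_pos h _) (v_anti h (by omega))
    have hMM : Real.log (v L (M + 1)) ≤ Real.log (v L M) :=
      Real.log_le_log (v_pos h _) (v_anti h (by omega))
    have h2 : Real.log (v L 0) - 2 * Real.log (((M + 1 : ℕ) : ℝ) + 1) ≤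
        Real.log (v L (M + 1)) := by
      have h3 := v_low h (M + 1)
      have hpos : (0 : ℝ) < Real.log 2 := Real.log_pos (by norm_num)
      have h4 := Real.log_le_log (div_pos hpos (by positivity)) h3
      rw [Real.log_div hpos.ne' (by positivity), Real.log_pow] at h4
      rw [hv0]
      push_cast at h4 ⊢
      linarith
    linarith

/-- away from the exceptional set -/
theorem good_bound (h : Growth L) {n : ℕ} (hn : n + 2 ∉ bad L) :
    Real.log ((L (n + 1) : ℝ) * L n) ≤ 15 / 16 * Real.log (L (n + 2)) := by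
  have hgood : 4 / 5 * v L n < v L (n + 2) := by
    by_contra hc
    push Not at hc
    exact hn ⟨by omega, by rwa [show n + 2 - 2 = n by omega]⟩
  have h1 := L_pos h (n + 1)
  have h0 := L_pos h n
  rw [Real.log_mul (by positivity) (by positivity)]
  have e1 : Real.log (L (n + 1)) = 2 ^ (n + 1) * v L (n + 1) := by
    unfold v; field_simp
  have e0 : Real.log (L n) = 2 ^ n * v L n := by unfold v; field_simp
  have e2 : Real.log (L (n + 2)) = 2 ^ (n + 2) * v L (n + 2) := by unfold v; field_simp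
  rw [e1, e0, e2]
  have hmono := v_succ_le h n
  have hp : (0 : ℝ) < 2 ^ n := by positivity
  rw [pow_succ, pow_succ, pow_succ]
  nlinarith [mul_le_mul_of_nonneg_left hmono hp.le, mul_lt_mul_of_pos_left hgood hp]

/-- the error term tends to zero -/
theorem error_small {ε : ℝ} (hε : 0 < ε) : ∃ n₀ : ℕ, ∀ n ≥ n₀,
    2 * (n.factorial : ℝ) * Real.exp (-(1 / 16) * (Real.log 2 * 2 ^ n / ((n : ℝ) + 1) ^ 2)) ≤ ε := by
  have hlog2 : 0 < Real.log 2 := Real.log_pos (by norm_num)
  have ht := tendsto_pow_const_div_const_pow_of_one_lt 5 (show (1 : ℝ) < 2 by norm_num)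
  have ht' : Filter.Tendsto (fun n : ℕ => (((n + 1 : ℕ) : ℝ)) ^ 5 / 2 ^ (n + 1)) Filter.atTop
      (nhds 0) := ht.comp (Filter.tendsto_add_atTop_nat 1)
  have hev := ht'.eventually (gt_mem_nhds (show (0 : ℝ) < Real.log 2 / 32 by positivity))
  obtain ⟨n₁, hn₁⟩ := Filter.eventually_atTop.mp hev
  obtain ⟨n₂, hn₂⟩ := exists_nat_ge (|Real.log (2 / ε)|)
  refine ⟨max n₁ n₂, ?_⟩
  intro n hn
  have h1 := hn₁ n (le_trans (le_max_left _ _) hn)
  have h2 : |Real.log (2 / ε)| ≤ n := hn₂.trans (by exact_mod_cast le_trans (le_max_right _ _) hn)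
  -- the exponent is at least (n+1)^3
  have h3 : ((n : ℝ) + 1) ^ 3 ≤ 1 / 16 * (Real.log 2 * 2 ^ n / ((n : ℝ) + 1) ^ 2) := by
    push_cast at h1
    rw [div_lt_iff₀ (by positivity)] at h1
    have : 1 / 16 * (Real.log 2 * 2 ^ n / ((n : ℝ) + 1) ^ 2) =
        (Real.log 2 / 32 * 2 ^ (n + 1)) / ((n : ℝ) + 1) ^ 2 := by rw [pow_succ]; ring
    rw [this, le_div_iff₀ (by positivity)]
    calc ((n : ℝ) + 1) ^ 3 * ((n : ℝ) + 1) ^ 2 = ((n : ℝ) + 1) ^ 5 := by ring
      _ ≤ _ := h1.le
  -- n! ≤ exp(n^2)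
  have h4 : (n.factorial : ℝ) ≤ Real.exp ((n : ℝ) * n) := by
    calc (n.factorial : ℝ) ≤ (n : ℝ) ^ n := by exact_mod_cast Nat.factorial_le_pow n
      _ ≤ (Real.exp n) ^ n := by
          apply pow_le_pow_left₀ (by positivity)
          linarith [Real.add_one_le_exp (n : ℝ)]
      _ = Real.exp ((n : ℝ) * n) := by rw [← Real.exp_nat_mul]
  have h5 : (2 : ℝ) ≤ ε * Real.exp n := by
    have : 2 / ε ≤ Real.exp n := by
      rw [← Real.log_le_iff_le_exp (by positivity)]
      exact (le_abs_self _).trans h2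
    rw [div_le_iff₀ hε] at this
    linarith
  have h6 : Real.exp (-(1 / 16) * (Real.log 2 * 2 ^ n / ((n : ℝ) + 1) ^ 2)) ≤
      Real.exp (-(((n : ℝ) + 1) ^ 3)) := by
    apply Real.exp_le_exp.mpr
    linarith
  calc 2 * (n.factorial : ℝ) * Real.exp (-(1 / 16) * (Real.log 2 * 2 ^ n / ((n : ℝ) + 1) ^ 2))
      ≤ (ε * Real.exp n) * Real.exp ((n : ℝ) * n) * Real.exp (-(((n : ℝ) + 1) ^ 3)) := by
        gcongr
    _ = ε * Real.exp ((n : ℝ) + n * n - (n + 1) ^ 3) := by
        rw [mul_assoc, mul_assoc, ← Real.exp_add, ← Real.exp_add]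
        congr 2; ring
    _ ≤ ε * 1 := by
        apply mul_le_mul_of_nonneg_left _ hε.le
        apply Real.exp_le_one_iff.mpr
        have hn0 : (0 : ℝ) ≤ n := Nat.cast_nonneg n
        have hn3 : (0 : ℝ) ≤ (n : ℝ) ^ 3 := by positivity
        nlinarith [sq_nonneg ((n : ℝ))]
    _ = ε := mul_one _

end Pool.Agent.Helper3.MAS
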