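import Pool.Agent.Helper3.MAS.Transfer
import Pool.Agent.Helper3.MAS.Seq

/-!
Outside a set of `n` with at most `20 log (N+1)` elements up to `N`, almost all matroids on `n`
elements (labelled or unlabelled) have no nontrivial automorphism, and the labelled and unlabelled
proportions of every isomorphism closed property agree asymptotically.
-/

namespace Pool.Agent.Helper3.MAS.Sparse

open Pool.Agent.Helper3.MAS

theorem growth : Growth (num ExK) where
  zero := num_zero
  step := num_succ_le ExK_MC
  low := fun n hn => knuth n (n / 2) hn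

theorem pairs_bound {n : ℕ} (hn : n ∉ bad (num ExK)) :
    (pairs n : ℝ) ≤ n.factorial * ((Nat.card (LabelledMatroid n) : ℝ) + 1) ^ (15 / 16 : ℝ) := by
  have hcast : (Nat.card (LabelledMatroid n) : ℝ) + 1 = (num ExK n : ℝ) := by
    exact_mod_cast card_labelled n
  have hsmall : n ≤ 1 → (pairs n : ℝ) = 0 := by
    intro h
    have : Subsingleton (Equiv.Perm (Fin n)) := by
      have : Subsingleton (Fin n) := Fin.subsingleton_iff_le_one.mpr h
      infer_instance
    unfold pairs
    have he : (Finset.univ : Finset (Equiv.Perm (Fin n))).erase 1 = ∅ := by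
      ext σ
      simp only [Finset.mem_erase, Finset.mem_univ, and_true, Finset.notMem_empty, iff_false]
      exact fun h => h (Subsingleton.elim _ _)
    rw [he, Finset.sum_empty, Nat.cast_zero]
  by_cases h1 : n ≤ 1
  · rw [hsmall h1]; positivity
  · obtain ⟨m, rfl⟩ : ∃ m, n = m + 2 := ⟨n - 2, by omega⟩
    rw [hcast]
    have hg := good_bound growth hn
    have hp := pairs_le m
    have hpos1 := L_pos growth (m + 1)
    have hpos0 := L_pos growth m
    have hpos2 := L_pos growth (m + 2)
    have hab : ((num ExK (m + 1) : ℝ) * num ExK m) ≤ (num ExK (m + 2) : ℝ) ^ (15 / 16 : ℝ) := by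
      rw [Real.rpow_def_of_pos (by positivity), ← Real.log_le_iff_le_exp (by positivity)]
      linarith
    calc (pairs (m + 2) : ℝ) ≤ ((m + 2).factorial : ℝ) * ((num ExK (m + 1) : ℝ) * num ExK m) := by
          exact_mod_cast hp
      _ ≤ _ := mul_le_mul_of_nonneg_left hab (by positivity)

theorem ratio_bound {n : ℕ} (hn : n ∉ bad (num ExK)) :
    (pairs n : ℝ) / Nat.card (LabelledMatroid n) ≤
      2 * (n.factorial : ℝ) *
        Real.exp (-(1 / 16) * (Real.log 2 * 2 ^ n / ((n : ℝ) + 1) ^ 2)) := by
  have hl : (0 : ℝ) < Nat.card (LabelledMatroid n) := by exact_mod_cast labelled_pos n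
  have hcast : (Nat.card (LabelledMatroid n) : ℝ) + 1 = (num ExK n : ℝ) := by
    exact_mod_cast card_labelled n
  have hc1 : (1 : ℝ) ≤ Nat.card (LabelledMatroid n) := by exact_mod_cast labelled_pos n
  have hcpos : (0 : ℝ) < num ExK n := by linarith
  rw [div_le_iff₀ hl]
  have hlow := log_low growth n
  have e1 : (num ExK n : ℝ) ^ (15 / 16 : ℝ) =
      (num ExK n : ℝ) * Real.exp (-(1 / 16) * Real.log (num ExK n)) := by
    rw [Real.rpow_def_of_pos hcpos]
    nth_rewrite 2 [← Real.exp_log hcpos]
    rw [← Real.exp_add]
    congr 1; ring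
  have e2 : Real.exp (-(1 / 16) * Real.log (num ExK n)) ≤
      Real.exp (-(1 / 16) * (Real.log 2 * 2 ^ n / ((n : ℝ) + 1) ^ 2)) := by
    apply Real.exp_le_exp.mpr
    linarith
  calc (pairs n : ℝ)
      ≤ n.factorial * ((Nat.card (LabelledMatroid n) : ℝ) + 1) ^ (15 / 16 : ℝ) := pairs_bound hn
    _ = n.factorial * ((num ExK n : ℝ) * Real.exp (-(1 / 16) * Real.log (num ExK n))) := by
        rw [hcast, e1]
    _ ≤ n.factorial * ((num ExK n : ℝ) *
        Real.exp (-(1 / 16) * (Real.log 2 * 2 ^ n / ((n : ℝ) + 1) ^ 2))) := by gcongr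
    _ ≤ n.factorial * ((2 * (Nat.card (LabelledMatroid n) : ℝ)) *
        Real.exp (-(1 / 16) * (Real.log 2 * 2 ^ n / ((n : ℝ) + 1) ^ 2))) := by
        gcongr
        linarith
    _ = _ := by ring

/-- There is a set `E` of natural numbers with at most `20 log (N+1)` elements up to `N`, for every
`N`, such that for `n` outside `E` the number of labelled matroids on `n` elements that have a
nontrivial automorphism is at most `n! (l(n)+1)^(15/16)`, and such that, as `n` tends to infinity
outside `E`, the labelled and unlabelled proportions of every isomorphism closed property agree up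
to an error tending to zero uniformly in the property, and almost all labelled and almost all
unlabelled matroids are asymmetric. -/
theorem result : ∃ E : Set ℕ,
    (∀ N : ℕ, ((E ∩ Set.Iic N).ncard : ℝ) ≤ 20 * Real.log (N + 1)) ∧
    (∀ n : ℕ, n ∉ E → ({M : LabelledMatroid n | ¬ Asymmetric M}.ncard : ℝ) ≤
      n.factorial * ((Nat.card (LabelledMatroid n) : ℝ) + 1) ^ (15 / 16 : ℝ)) ∧
    ∀ ε : ℝ, 0 < ε → ∃ n₀ : ℕ, ∀ n ≥ n₀, n ∉ E →
      (∀ P : Set (LabelledMatroid n), IsoClosed P →
        |unlabelledProportion P - labelledProportion P| ≤ ε) ∧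
      1 - ε ≤ labelledProportion {M : LabelledMatroid n | Asymmetric M} ∧
      1 - ε ≤ unlabelledProportion {M : LabelledMatroid n | Asymmetric M} := by
  refine ⟨bad (num ExK), bad_count growth, ?_, ?_⟩
  · intro n hn
    refine le_trans ?_ (pairs_bound hn)
    exact_mod_cast asym_labelled n
  · intro ε hε
    obtain ⟨n₀, hn₀⟩ := error_small (half_pos hε)
    refine ⟨n₀, ?_⟩
    intro n hn hnE
    have hδ : (pairs n : ℝ) / Nat.card (LabelledMatroid n) ≤ ε / 2 :=
      (ratio_bound hnE).trans (hn₀ n hn)
    have hl : (0 : ℝ) < Nat.card (LabelledMatroid n) := by exact_mod_cast labelled_pos n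
    have hlab : 1 - ε / 2 ≤ labelledProportion {M : LabelledMatroid n | Asymmetric M} := by
      unfold labelledProportion
      have hsum : {M : LabelledMatroid n | Asymmetric M}.ncard +
          {M : LabelledMatroid n | ¬ Asymmetric M}.ncard = Nat.card (LabelledMatroid n) := by
        have := Set.ncard_add_ncard_compl {M : LabelledMatroid n | Asymmetric M}
        exact this
      have hna := asym_labelled n
      have h1 : (Nat.card (LabelledMatroid n) : ℝ) - pairs n ≤
          ({M : LabelledMatroid n | Asymmetric M}.ncard : ℝ) := by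
        have : Nat.card (LabelledMatroid n) ≤
            {M : LabelledMatroid n | Asymmetric M}.ncard + pairs n := by omega
        have : (Nat.card (LabelledMatroid n) : ℝ) ≤
            {M : LabelledMatroid n | Asymmetric M}.ncard + pairs n := by exact_mod_cast this
        linarith
      rw [le_div_iff₀ hl]
      rw [div_le_iff₀ hl] at hδ
      linarith
    refine ⟨fun P hP => (transfer P hP).trans (by linarith), by linarith, ?_⟩
    have := transfer {M : LabelledMatroid n | Asymmetric M} (asym_isoClosed n)
    rw [abs_le] at this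
    linarith [this.1]

end Pool.Agent.Helper3.MAS.Sparse
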