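import Pool.Agent.Helper3.MAS.Bridge

/-!
Labelled and unlabelled proportions differ by at most the number of pairs (matroid, nontrivial
automorphism), divided by the number of labelled matroids.
-/

namespace Pool.Agent.Helper3.MAS

open Finset MulAction

variable {n : ℕ}

/-- relabelling a matroid -/
noncomputable instance actLM : MulAction (Equiv.Perm (Fin n)) (LabelledMatroid n) where
  smul σ M := ⟨M.1.mapEquiv σ, by
    rw [Matroid.mapEquiv_ground_eq, M.2, Set.image_univ, σ.surjective.range_eq]⟩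
  one_smul M := by
    apply Subtype.ext
    change M.1.mapEquiv 1 = M.1
    apply Matroid.ext_isBase
    · rw [Matroid.mapEquiv_ground_eq, M.2]; simp
    · intro B _
      rw [Matroid.mapEquiv_isBase_iff]
      have : ((1 : Equiv.Perm (Fin n)).symm : Fin n → Fin n) = id := rfl
      rw [this, Set.image_id]
  mul_smul σ τ M := by
    apply Subtype.ext
    change M.1.mapEquiv (σ * τ) = (M.1.mapEquiv τ).mapEquiv σ
    apply Matroid.ext_isBase
    · rw [Matroid.mapEquiv_ground_eq, Matroid.mapEquiv_ground_eq, Matroid.mapEquiv_ground_eq,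
        ← Set.image_comp]
      rfl
    · intro B _
      rw [Matroid.mapEquiv_isBase_iff, Matroid.mapEquiv_isBase_iff, Matroid.mapEquiv_isBase_iff,
        ← Set.image_comp]
      rfl

theorem smul_isBase (σ : Equiv.Perm (Fin n)) (M : LabelledMatroid n) (B : Set (Fin n)) :
    (σ • M).1.IsBase B ↔ M.1.IsBase (σ.symm '' B) :=
  Matroid.mapEquiv_isBase_iff

theorem isIso_iff {σ : Equiv.Perm (Fin n)} {M N : LabelledMatroid n} :
    IsIso σ M N ↔ σ • M = N := by
  constructor
  · intro h
    apply Subtype.ext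
    apply Matroid.ext_isBase (by rw [(σ • M).2, N.2])
    intro B _
    rw [smul_isBase, h]
    rw [Equiv.image_symm_eq_preimage, Set.image_preimage_eq B σ.surjective]
  · rintro rfl B
    rw [smul_isBase, Equiv.symm_image_image]

theorem isoSetoid_eq : isoSetoid n = orbitRel (Equiv.Perm (Fin n)) (LabelledMatroid n) := by
  apply Setoid.ext
  intro M N
  constructor
  · rintro ⟨σ, hσ⟩
    apply (orbitRel _ _).symm
    exact ⟨σ, isIso_iff.mp hσ⟩
  · intro h
    obtain ⟨σ, hσ⟩ := (orbitRel _ _).symm h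
    exact ⟨σ, isIso_iff.mpr hσ⟩

theorem burnside (P : Set (LabelledMatroid n)) (hP : IsoClosed P) :
    (Quotient.mk (isoSetoid n) '' P).ncard * n.factorial =
      ∑ σ : Equiv.Perm (Fin n), {M | M ∈ P ∧ IsIso σ M M}.ncard := by
  rw [isoSetoid_eq]
  have h := orbit_count (G := Equiv.Perm (Fin n)) P (by
    intro σ M hM
    exact hP M (σ • M) ⟨σ, isIso_iff.mpr rfl⟩ hM)
  rw [Fintype.card_perm, Fintype.card_fin] at h
  rw [h]
  apply Finset.sum_congr rfl
  intro σ _
  congr 1
  ext M
  rw [Set.mem_ofPred_eq, Set.mem_ofPred_eq, isIso_iff]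

/-- the number of pairs (matroid, nontrivial automorphism) -/
noncomputable def pairs (n : ℕ) : ℕ :=
  ∑ σ ∈ (Finset.univ : Finset (Equiv.Perm (Fin n))).erase 1,
    {M : LabelledMatroid n | IsIso σ M M}.ncard

theorem isIso_one (M : LabelledMatroid n) : IsIso 1 M M := by
  intro B; simp

theorem burnside_bounds (P : Set (LabelledMatroid n)) (hP : IsoClosed P) :
    P.ncard ≤ (Quotient.mk (isoSetoid n) '' P).ncard * n.factorial ∧
    (Quotient.mk (isoSetoid n) '' P).ncard * n.factorial ≤ P.ncard + pairs n := by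
  classical
  rw [burnside P hP, ← Finset.add_sum_erase _ _ (Finset.mem_univ (1 : Equiv.Perm (Fin n)))]
  have h1 : {M | M ∈ P ∧ IsIso 1 M M} = P := by
    ext M
    exact ⟨fun h => h.1, fun h => ⟨h, isIso_one M⟩⟩
  rw [h1]
  refine ⟨Nat.le_add_right _ _, Nat.add_le_add_left ?_ _⟩
  apply Finset.sum_le_sum
  intro σ _
  apply Set.ncard_le_ncard _ (Set.toFinite _)
  intro M hM; exact hM.2

theorem labelled_pos (n : ℕ) : 0 < Nat.card (LabelledMatroid n) := by
  have : Nonempty (LabelledMatroid n) := ⟨⟨Matroid.freeOn Set.univ, rfl⟩⟩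
  exact Nat.card_pos

theorem transfer (P : Set (LabelledMatroid n)) (hP : IsoClosed P) :
    |unlabelledProportion P - labelledProportion P| ≤
      (pairs n : ℝ) / Nat.card (LabelledMatroid n) := by
  obtain ⟨h1, h2⟩ := burnside_bounds P hP
  obtain ⟨h3, h4⟩ := burnside_bounds (Set.univ : Set (LabelledMatroid n)) (fun _ _ _ _ => trivial)
  have hu : (Quotient.mk (isoSetoid n) '' (Set.univ : Set (LabelledMatroid n))).ncard =
      Nat.card (Quotient (isoSetoid n)) := by
    rw [Set.image_univ, Set.range_eq_univ.mpr Quotient.mk_surjective, Set.ncard_univ]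
  rw [hu, Set.ncard_univ] at h3 h4
  have hl : 0 < Nat.card (LabelledMatroid n) := labelled_pos n
  have hf : 0 < Nat.card (Quotient (isoSetoid n)) := by
    rcases Nat.eq_zero_or_pos (Nat.card (Quotient (isoSetoid n))) with h | h
    · rw [h, zero_mul] at h3; omega
    · exact h
  have hPl : P.ncard ≤ Nat.card (LabelledMatroid n) := by
    rw [← Set.ncard_univ]; exact Set.ncard_le_ncard (Set.subset_univ _)
  unfold unlabelledProportion labelledProportion
  set l : ℝ := (Nat.card (LabelledMatroid n) : ℝ) with hldef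
  set f : ℝ := (Nat.card (Quotient (isoSetoid n)) : ℝ) with hfdef
  set p : ℝ := (P.ncard : ℝ) with hpdef
  set q : ℝ := ((Quotient.mk (isoSetoid n) '' P).ncard : ℝ) with hqdef
  set D : ℝ := (pairs n : ℝ) with hDdef
  set N : ℝ := (n.factorial : ℝ) with hNdef
  have hN : 0 < N := by rw [hNdef]; exact_mod_cast Nat.factorial_pos n
  have hl' : 0 < l := by rw [hldef]; exact_mod_cast hl
  have hf' : 0 < f := by rw [hfdef]; exact_mod_cast hf
  have hD : 0 ≤ D := by rw [hDdef]; positivity
  have e1 : p ≤ q * N := by rw [hpdef, hqdef, hNdef]; exact_mod_cast h1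
  have e2 : q * N ≤ p + D := by rw [hpdef, hqdef, hNdef, hDdef]; exact_mod_cast h2
  have e3 : l ≤ f * N := by rw [hldef, hfdef, hNdef]; exact_mod_cast h3
  have e4 : f * N ≤ l + D := by rw [hldef, hfdef, hNdef, hDdef]; exact_mod_cast h4
  have e5 : p ≤ l := by rw [hpdef, hldef]; exact_mod_cast hPl
  have hp0 : 0 ≤ p := by rw [hpdef]; positivity
  have eq1 : q / f = (q * N) / (f * N) := by rw [mul_div_mul_right _ _ hN.ne']
  rw [eq1, abs_le]
  have hfN : 0 < f * N := by positivity
  constructor
  · rw [neg_le_sub_iff_le_add, div_add_div _ _ hfN.ne' hl'.ne', div_le_div_iff₀ hl' (by positivity)]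
    nlinarith [mul_le_mul_of_nonneg_left e4 hp0, mul_le_mul_of_nonneg_right e1 hl'.le,
      mul_le_mul_of_nonneg_right e5 hD, mul_nonneg hD hfN.le, mul_le_mul_of_nonneg_left e3 hD,
      mul_pos hl' hl', mul_pos hl' hfN]
  · rw [sub_le_iff_le_add, ← add_div, div_le_div_iff₀ hfN hl']
    have : (D + p) * l ≤ (D + p) * (f * N) := mul_le_mul_of_nonneg_left e3 (by linarith)
    nlinarith [mul_le_mul_of_nonneg_right e2 hl'.le]

/-- few pairs means that almost all matroids are asymmetric -/
theorem asym_labelled (n : ℕ) :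
    {M : LabelledMatroid n | ¬ Asymmetric M}.ncard ≤ pairs n := by
  classical
  have h1 : {M : LabelledMatroid n | ¬ Asymmetric M} ⊆
      ⋃ σ ∈ (Finset.univ : Finset (Equiv.Perm (Fin n))).erase 1,
        {M : LabelledMatroid n | IsIso σ M M} := by
    intro M hM
    have hM' : ¬ Asymmetric M := hM
    unfold Asymmetric at hM'
    push Not at hM'
    obtain ⟨σ, hσ, hσ1⟩ := hM'
    rw [Set.mem_iUnion₂]
    exact ⟨σ, Finset.mem_erase.mpr ⟨hσ1, Finset.mem_univ _⟩, hσ⟩
  exact (Set.ncard_le_ncard h1 (Set.toFinite _)).trans (Finset.set_ncard_biUnion_le _ _)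

theorem asym_isoClosed (n : ℕ) : IsoClosed {M : LabelledMatroid n | Asymmetric M} := by
  rintro M N ⟨σ, hσ⟩ hM τ hτ
  rw [isIso_iff] at hσ hτ
  have : IsIso (σ⁻¹ * τ * σ) M M := by
    rw [isIso_iff, mul_smul, mul_smul, hσ, hτ, ← hσ, inv_smul_smul]
  have h1 := hM _ this
  calc τ = σ * (σ⁻¹ * τ * σ) * σ⁻¹ := by group
    _ = 1 := by rw [h1]; group

theorem pairs_le (m : ℕ) : pairs (m + 2) ≤ (m + 2).factorial * (num ExK (m + 1) * num ExK m) := by
  classical
  unfold pairs
  calc ∑ σ ∈ (Finset.univ : Finset (Equiv.Perm (Fin (m + 2)))).erase 1,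
        {M : LabelledMatroid (m + 2) | IsIso σ M M}.ncard
      ≤ ∑ _σ ∈ (Finset.univ : Finset (Equiv.Perm (Fin (m + 2)))).erase 1,
        (num ExK (m + 1) * num ExK m) := by
        apply Finset.sum_le_sum
        intro σ hσ
        exact card_fixed_le σ (Finset.ne_of_mem_erase hσ)
    _ = ((Finset.univ : Finset (Equiv.Perm (Fin (m + 2)))).erase 1).card *
        (num ExK (m + 1) * num ExK m) := by rw [Finset.sum_const, smul_eq_mul]
    _ ≤ (m + 2).factorial * (num ExK (m + 1) * num ExK m) := by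
        apply Nat.mul_le_mul_right
        calc ((Finset.univ : Finset (Equiv.Perm (Fin (m + 2)))).erase 1).card
            ≤ (Finset.univ : Finset (Equiv.Perm (Fin (m + 2)))).card :=
              Finset.card_le_card (Finset.erase_subset _ _)
          _ = (m + 2).factorial := by rw [Finset.card_univ, Fintype.card_perm, Fintype.card_fin]

end Pool.Agent.Helper3.MAS
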